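import Pool.Agent.H484.AL.Stm

/-!
# MP_6b2836_nt: structure of parallel dual vectors
-/

set_option autoImplicit false

namespace Pool.Agent.H484.AL

open Finset
open scoped Classical

theorem t_PARSTR : S_PARSTR := by
  intro e g M a0 k k' α b l l' he hg hcop hl hl' hk hk' hpar h1 h2 hb1 hb2
  obtain ⟨i0, -⟩ : ∃ i0 : Fin e, True := ⟨⟨0, he⟩, trivial⟩
  have hG : 0 < Nat.gcd (l i0) (l' i0) := Nat.gcd_pos_of_pos_left _ (hl i0)
  obtain ⟨G, m, m', hGpos, hmm, e1, e2⟩ : ∃ G m m' : ℕ, 0 < G ∧ Nat.Coprime m m' ∧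
      l i0 = m * G ∧ l' i0 = m' * G := by
    refine ⟨Nat.gcd (l i0) (l' i0), l i0 / Nat.gcd (l i0) (l' i0),
      l' i0 / Nat.gcd (l i0) (l' i0), hG, Nat.coprime_div_gcd_div_gcd hG, ?_, ?_⟩
    · rw [Nat.div_mul_cancel (Nat.gcd_dvd_left _ _)]
    · rw [Nat.div_mul_cancel (Nat.gcd_dvd_right _ _)]
  have hm : 1 ≤ m := by
    rcases Nat.eq_zero_or_pos m with h | h
    · have := hl i0
      rw [e1, h, zero_mul] at this
      omega
    · exact h
  have hm' : 1 ≤ m' := by
    rcases Nat.eq_zero_or_pos m' with h | h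
    · have := hl' i0
      rw [e2, h, zero_mul] at this
      omega
    · exact h
  have hml : ∀ i, m' * l i = m * l' i := by
    intro i
    have h3 := hpar i i0
    rw [e1, e2] at h3
    refine Nat.eq_of_mul_eq_mul_right hGpos ?_
    calc m' * l i * G = l i * (m' * G) := by ring
      _ = m * G * l' i := h3
      _ = m * l' i * G := by ring
  have hdiv : ∀ i, ∃ x, l i = m * x ∧ l' i = m' * x := by
    intro i
    have h3 : m ∣ m' * l i := ⟨l' i, hml i⟩
    obtain ⟨x, hx⟩ := hmm.dvd_of_dvd_mul_left h3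
    refine ⟨x, hx, ?_⟩
    have h4 := hml i
    rw [hx] at h4
    refine Nat.eq_of_mul_eq_mul_left (lt_of_lt_of_le Nat.zero_lt_one hm) ?_
    rw [← h4]
    ring
  choose l'' hl1 hl2 using hdiv
  -- the first coordinates
  have hkk : m' * k = m * k' := by
    have hA : (m' : ℤ) * ((g : ℤ) * a0 * k + ∑ i, ((α i : ℤ) + g * b i) * l i) -
        m * ((g : ℤ) * a0 * k' + ∑ i, ((α i : ℤ) + g * b i) * l' i) =
        (g : ℤ) * (a0 * (m' * k - m * k')) := by
      have h3 : (m' : ℤ) * ∑ i, ((α i : ℤ) + g * b i) * l i =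
          m * ∑ i, ((α i : ℤ) + g * b i) * l' i := by
        rw [Finset.mul_sum, Finset.mul_sum]
        refine Finset.sum_congr rfl fun i _ => ?_
        have h4 : (m' : ℤ) * l i = m * l' i := by exact_mod_cast hml i
        linear_combination ((α i : ℤ) + g * b i) * h4
      linear_combination h3
    have hB : ((g * M : ℕ) : ℤ) ∣ (g : ℤ) * (a0 * (m' * k - m * k')) := by
      rw [← hA]
      refine dvd_sub (Dvd.dvd.mul_left ?_ _) (Dvd.dvd.mul_left ?_ _)
      · have := Int.natCast_dvd_natCast.2 h1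
        push_cast at this ⊢
        exact this
      · have := Int.natCast_dvd_natCast.2 h2
        push_cast at this ⊢
        exact this
    have hC : (M : ℤ) ∣ a0 * (m' * k - m * k') := by
      rw [Nat.cast_mul] at hB
      have hg0 : (g : ℤ) ≠ 0 := by exact_mod_cast (by omega : g ≠ 0)
      exact (mul_dvd_mul_iff_left hg0).1 hB
    have hD : (M : ℤ) ∣ m' * k - m * k' := by
      have h3 : IsCoprime (M : ℤ) (a0 : ℤ) := (Nat.isCoprime_iff_coprime.2 hcop).symm
      exact h3.dvd_of_dvd_mul_left hC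
    have b1 : m' * k < M := by
      refine lt_of_le_of_lt ?_ (hb1 i0)
      refine Nat.mul_le_mul_right k ?_
      rw [e2]
      exact Nat.le_mul_of_pos_right _ hGpos
    have b2 : m * k' < M := by
      refine lt_of_le_of_lt ?_ (hb2 i0)
      refine Nat.mul_le_mul_right k' ?_
      rw [e1]
      exact Nat.le_mul_of_pos_right _ hGpos
    have hE : (m' : ℤ) * k - m * k' = 0 := by
      refine Int.eq_zero_of_abs_lt_dvd hD ?_
      have c1 : (m' : ℤ) * k < M := by exact_mod_cast b1
      have c2 : (m : ℤ) * k' < M := by exact_mod_cast b2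
      have c3 : (0 : ℤ) ≤ (m' : ℤ) * k := by positivity
      have c4 : (0 : ℤ) ≤ (m : ℤ) * k' := by positivity
      rw [abs_lt]
      constructor <;> linarith
    have hF : (m' : ℤ) * k = m * k' := by linarith
    exact_mod_cast hF
  obtain ⟨k'', hk1⟩ : m ∣ k := hmm.dvd_of_dvd_mul_left ⟨k', hkk⟩
  have hk2 : k' = m' * k'' := by
    refine Nat.eq_of_mul_eq_mul_left (lt_of_lt_of_le Nat.zero_lt_one hm) ?_
    rw [← hkk, hk1]
    ring
  refine ⟨m, m', k'', l'', hm, hm', hmm, hk1, hk2, hl1, hl2, ?_⟩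
  have hD1 : g * a0 * k + ∑ i, (α i + g * b i) * l i =
      m * (g * a0 * k'' + ∑ i, (α i + g * b i) * l'' i) := by
    rw [mul_add, Finset.mul_sum, hk1]
    refine congrArg₂ (· + ·) (by ring) (Finset.sum_congr rfl fun i _ => ?_)
    rw [hl1 i]
    ring
  have hD2 : g * a0 * k' + ∑ i, (α i + g * b i) * l' i =
      m' * (g * a0 * k'' + ∑ i, (α i + g * b i) * l'' i) := by
    rw [mul_add, Finset.mul_sum, hk2]
    refine congrArg₂ (· + ·) (by ring) (Finset.sum_congr rfl fun i _ => ?_)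
    rw [hl2 i]
    ring
  rw [hD1] at h1
  rw [hD2] at h2
  have h3 := Nat.dvd_gcd h1 h2
  rw [Nat.gcd_mul_right, hmm, one_mul] at h3
  exact h3

end Pool.Agent.H484.AL
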